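import Pool.Agent.P.MP_8972a1_co.Seven

set_option autoImplicit false

namespace Pool.Agent.Results.MP_8972a1_co.PlanarSeven

/-- Let `G` be a finite graph that is drawn in the plane without crossings, or more generally has
no `K₅` minor.  Let `L` be an assignment of lists of size seven and `M u v` a matching between
colours at `u` and colours at `v` (the conflicts; `M u v x y := x = y` is ordinary list
colouring).  Then there is a probability distribution on the conflict-free colourings from the
lists that gives every vertex every colour of its list with probability `1 / 7`. -/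
theorem result :
    ∀ n : ℕ, ∀ G : SimpleGraph (Fin n),
      ((∃ f : Fin n → ℝ × ℝ, Function.Injective f ∧
        ∃ γ : ∀ u v : Fin n, Path (f u) (f v),
          (∀ u v, G.Adj u v → Function.Injective ⇑(γ u v)) ∧
          (∀ u v w, G.Adj u v → ∀ t, γ u v t = f w → w = u ∨ w = v) ∧
          (∀ u v u' v', G.Adj u v → G.Adj u' v' → s(u, v) ≠ s(u', v') →
            ∀ t t', γ u v t = γ u' v' t' → ∃ w, γ u v t = f w)) ∨
       ¬ ∃ X : Fin 5 → Set (Fin n), (∀ i, (G.induce (X i)).Connected) ∧
          ∀ i j, i ≠ j → Disjoint (X i) (X j) ∧ ∃ a ∈ X i, ∃ b ∈ X j, G.Adj a b) →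
      ∀ L : Fin n → Finset ℕ, (∀ v, (L v).card = 7) →
      ∀ M : Fin n → Fin n → ℕ → ℕ → Prop,
        (∀ u v x y, M u v x y → M v u y x) →
        (∀ u v x y y', M u v x y → M u v x y' → y = y') →
        ∃ S : Finset (Fin n → ℕ), ∃ w : (Fin n → ℕ) → ℝ,
          (∀ c ∈ S, (∀ v, c v ∈ L v) ∧ ∀ u v, G.Adj u v → ¬ M u v (c u) (c v)) ∧
          (∀ c ∈ S, 0 ≤ w c) ∧ S.sum w = 1 ∧
          ∀ v, ∀ x ∈ L v, (S.filter (fun c => c v = x)).sum w = (1 : ℝ) / 7 :=
  fun _ G hG L hL M hsymm hmatch =>
    Pool.Agent.P.MP_8972a1_co.seven G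
      (hG.elim (Pool.Agent.P.MP_8972a1_co.not_kfive_of_drawing G)
        Pool.Agent.P.MP_8972a1_co.not_kfive) L hL M hsymm hmatch

end Pool.Agent.Results.MP_8972a1_co.PlanarSeven
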