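import Pool.Agent.P.MP_8972a1_co.Sub.Main

set_option autoImplicit false

namespace Pool.Agent.Results.MP_8972a1_co.SubcubicThree

/-- Let `G` be a finite graph of maximum degree at most three and girth at least five that is
drawn in the plane without crossings, or more generally has no cubic component on at most fourteen
vertices.  Let `L` be an assignment of lists of size three and `M u v` a matching between colours
at `u` and colours at `v` (the conflicts; `M u v x y := x = y` is ordinary list colouring).  Then
there is a probability distribution on the conflict-free colourings from the lists that gives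
every vertex every colour of its list with probability `1 / 3`. -/
theorem result :
    ∀ n : ℕ, ∀ G : SimpleGraph (Fin n),
      ((∃ f : Fin n → ℝ × ℝ, Function.Injective f ∧
        ∃ γ : ∀ u v : Fin n, Path (f u) (f v),
          (∀ u v, G.Adj u v → Function.Injective ⇑(γ u v)) ∧
          (∀ u v w, G.Adj u v → ∀ t, γ u v t = f w → w = u ∨ w = v) ∧
          (∀ u v u' v', G.Adj u v → G.Adj u' v' → s(u, v) ≠ s(u', v') →
            ∀ t t', γ u v t = γ u' v' t' → ∃ w, γ u v t = f w)) ∨
       ∀ S : Finset (Fin n), S.Nonempty → (∀ v ∈ S, 3 ≤ (G.neighborSet v ∩ ↑S).ncard) →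
          15 ≤ S.card) →
      5 ≤ G.egirth → (∀ v, (G.neighborSet v).ncard ≤ 3) →
      ∀ L : Fin n → Finset ℕ, (∀ v, (L v).card = 3) →
      ∀ M : Fin n → Fin n → ℕ → ℕ → Prop,
        (∀ u v x y, M u v x y → M v u y x) →
        (∀ u v x y y', M u v x y → M u v x y' → y = y') →
        ∃ S : Finset (Fin n → ℕ), ∃ w : (Fin n → ℕ) → ℝ,
          (∀ c ∈ S, (∀ v, c v ∈ L v) ∧ ∀ u v, G.Adj u v → ¬ M u v (c u) (c v)) ∧
          (∀ c ∈ S, 0 ≤ w c) ∧ S.sum w = 1 ∧
          ∀ v, ∀ x ∈ L v, (S.filter (fun c => c v = x)).sum w = (1 : ℝ) / 3 := by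
  intro n G hP hg hd
  classical
  have hG := Pool.Agent.P.MP_8972a1_co.Sub.gd_of G hd hg
  refine Pool.Agent.P.MP_8972a1_co.Sub.three G hG fun S hS h => hP.elim (fun hD => ?_) fun hB =>
    hB S hS fun v hv => (h v hv).trans_eq (Pool.Agent.P.MP_8972a1_co.Sub.dg_eq G S v).symm
  exact le_trans (by norm_num) (Pool.Agent.P.MP_8972a1_co.Sub.twenty G hG hD S hS h)

end Pool.Agent.Results.MP_8972a1_co.SubcubicThree
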