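import Pool.Agent.P.MP_8972a1_co.Pack

set_option autoImplicit false

namespace Pool.Agent.Results.MP_8972a1_co.TriangleFreeFour

/-- Let `G` be a finite triangle-free graph drawn in the plane without crossings, `L` an
assignment of lists of size four, and `M u v` a matching between colours at `u` and colours at `v`
(the conflicts; `M u v x y := x = y` is ordinary list colouring).  Then there are four
conflict-free colourings from the lists that use every colour of every list exactly once. -/
theorem result :
    ∀ n : ℕ, ∀ G : SimpleGraph (Fin n),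
      (∃ f : Fin n → ℝ × ℝ, Function.Injective f ∧
        ∃ γ : ∀ u v : Fin n, Path (f u) (f v),
          (∀ u v, G.Adj u v → Function.Injective ⇑(γ u v)) ∧
          (∀ u v w, G.Adj u v → ∀ t, γ u v t = f w → w = u ∨ w = v) ∧
          (∀ u v u' v', G.Adj u v → G.Adj u' v' → s(u, v) ≠ s(u', v') →
            ∀ t t', γ u v t = γ u' v' t' → ∃ w, γ u v t = f w)) →
      G.CliqueFree 3 →
      ∀ L : Fin n → Finset ℕ, (∀ v, (L v).card = 4) →
      ∀ M : Fin n → Fin n → ℕ → ℕ → Prop,
        (∀ u v x y, M u v x y → M v u y x) →
        (∀ u v x y y', M u v x y → M u v x y' → y = y') →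
        ∃ c : Fin 4 → Fin n → ℕ,
          (∀ i v, c i v ∈ L v) ∧
          (∀ i u v, G.Adj u v → ¬ M u v (c i u) (c i v)) ∧
          ∀ v, ∀ x ∈ L v, ∃! i, c i v = x :=
  fun _ G hG htri L hL M hsymm hmatch =>
    Pool.Agent.P.MP_8972a1_co.packing_four G hG htri L hL M hsymm hmatch

end Pool.Agent.Results.MP_8972a1_co.TriangleFreeFour
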